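import Pool.Agent.Run7.h523.KF.Iface2

set_option autoImplicit false
set_option linter.unusedSectionVars false

/-! Piece SYMA of the project of helper523: symmetrization over permutations. -/

namespace Run7.h961.KF

open MeasureTheory Set Filter Topology
open scoped ENNReal
open Run7.h523.KF

variable {P : Type} [Fintype P] [DecidableEq P]

theorem perm_inv (σ : Equiv.Perm P) (g : (P → ℝ) → ℝ≥0∞) :
    ∫⁻ x : P → ℝ, g (fun v => x (σ v)) = ∫⁻ x, g x := by
  have h1 := volume_measurePreserving_piCongrLeft (fun _ : P => ℝ) σ.symm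
  have h2 := h1.lintegral_comp_emb (MeasurableEquiv.measurableEmbedding _) g
  rw [← h2]
  refine lintegral_congr fun x => ?_
  congr 1
  funext v
  have := Equiv.piCongrLeft_apply_apply (fun _ : P => ℝ) σ.symm x (σ v)
  rw [Equiv.symm_apply_apply] at this
  exact this.symm

theorem meas_KC (R : P × Bool → P × Bool → Prop) : MeasurableSet (KC R) := by
  have h : IsClosed (KC R) := by
    have : KC R = ⋂ a, ⋂ b, ⋂ (_ : R a b), {x | sv x a ≤ sv x b} := by
      ext x; simp [KC]
    rw [this]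
    refine isClosed_iInter fun a => isClosed_iInter fun b => isClosed_iInter fun _ => ?_
    have hc : ∀ a : P × Bool, Continuous fun x : P → ℝ => sv x a := by
      intro a
      unfold sv
      split_ifs
      · exact continuous_apply _
      · exact (continuous_apply _).neg
    exact isClosed_le (hc a) (hc b)
  exact h.measurableSet

theorem ae_inj : ∀ᵐ x : P → ℝ, Function.Injective x := by
  have h1 : ∀ p : P × P, ∀ᵐ x : P → ℝ, p.1 ≠ p.2 → x p.1 ≠ x p.2 := by
    intro p
    by_cases hp : p.1 = p.2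
    · exact Eventually.of_forall fun x h => absurd hp h
    have hs : (LinearMap.ker ((LinearMap.proj p.1 : (P → ℝ) →ₗ[ℝ] ℝ) - LinearMap.proj p.2)) ≠ ⊤ := by
      intro h
      have h2 : (Pi.single p.1 1 : P → ℝ) ∈
          LinearMap.ker ((LinearMap.proj p.1 : (P → ℝ) →ₗ[ℝ] ℝ) - LinearMap.proj p.2) := by
        rw [h]; trivial
      simp [LinearMap.mem_ker, Ne.symm hp] at h2
    have h3 := Measure.addHaar_submodule (volume : Measure (P → ℝ)) _ hs
    rw [ae_iff]
    refine measure_mono_null ?_ h3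
    intro x hx
    simp only [mem_ofPred_eq, not_forall, not_not] at hx
    obtain ⟨_, hx⟩ := hx
    simp [LinearMap.mem_ker, hx]
  have h2 : ∀ᵐ x : P → ℝ, ∀ p : P × P, p.1 ≠ p.2 → x p.1 ≠ x p.2 := ae_all_iff.mpr h1
  filter_upwards [h2] with x hx v w hvw
  by_contra h
  exact hx (v, w) h hvw

theorem exists_sort (x : P → ℝ) (hx : Function.Injective x) :
    ∃ e : Fin (Fintype.card P) ≃ P, ∀ i j, x (e i) ≤ x (e j) ↔ i ≤ j := by
  let e0 := (Fintype.equivFin P).symm
  let π := Tuple.sort (x ∘ e0)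
  refine ⟨π.trans e0, fun i j => ?_⟩
  have h1 : Monotone ((x ∘ e0) ∘ π) := Tuple.monotone_sort _
  have h2 : StrictMono ((x ∘ e0) ∘ π) :=
    h1.strictMono_of_injective ((hx.comp e0.injective).comp π.injective)
  exact h2.le_iff_le

theorem exists_perm (x x' : P → ℝ) (hx : Function.Injective x) (hx' : Function.Injective x') :
    ∃ τ : Equiv.Perm P, ∀ v w, x (τ v) ≤ x (τ w) ↔ x' v ≤ x' w := by
  obtain ⟨e, he⟩ := exists_sort x hx
  obtain ⟨e', he'⟩ := exists_sort x' hx'
  refine ⟨e'.symm.trans e, fun v w => ?_⟩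
  have h1 := he' (e'.symm v) (e'.symm w)
  rw [Equiv.apply_symm_apply, Equiv.apply_symm_apply] at h1
  rw [h1]
  exact he _ _

open Classical in
/-- the number of permutations which bring `x` to the cone -/
noncomputable def cnt (R : P × Bool → P × Bool → Prop) (x : P → ℝ) : ℕ :=
  (Finset.univ.filter fun σ : Equiv.Perm P => (fun v => x (σ v)) ∈ KC R).card

theorem mem_KC (R : P × Bool → P × Bool → Prop) (hR : TypeA R) (x : P → ℝ) :
    x ∈ KC R ↔ ∀ a b, R a b → x a.1 ≤ x b.1 := by
  unfold KC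
  simp only [mem_ofPred_eq]
  refine forall_congr' fun a => forall_congr' fun b => forall_congr' fun h => ?_
  obtain ⟨h1, h2⟩ := hR a b h
  simp [sv, h1, h2]

theorem cnt_eq (R : P × Bool → P × Bool → Prop) (hR : TypeA R) (x x' : P → ℝ)
    (hx : Function.Injective x) (hx' : Function.Injective x') : cnt R x = cnt R x' := by
  classical
  obtain ⟨τ, hτ⟩ := exists_perm x x' hx hx'
  unfold cnt
  symm
  refine Finset.card_bij (fun σ _ => τ * σ) ?_ ?_ ?_
  · intro σ hσ
    simp only [Finset.mem_filter, Finset.mem_univ, true_and] at hσ ⊢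
    rw [mem_KC R hR] at hσ ⊢
    intro a b hab
    exact (hτ _ _).mpr (hσ a b hab)
  · intro σ _ σ' _ h
    exact mul_left_cancel h
  · intro σ hσ
    refine ⟨τ⁻¹ * σ, ?_, by simp⟩
    simp only [Finset.mem_filter, Finset.mem_univ, true_and] at hσ ⊢
    rw [mem_KC R hR] at hσ ⊢
    intro a b hab
    refine (hτ _ _).mp ?_
    simpa using hσ a b hab

theorem key (R : P × Bool → P × Bool → Prop) (hR : TypeA R) (G : (P → ℝ) → ℝ≥0∞)
    (hG : Measurable G) (hinv : ∀ (σ : Equiv.Perm P) (x : P → ℝ), G (fun v => x (σ v)) = G x)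
    (x0 : P → ℝ) (hx0 : Function.Injective x0) :
    (Fintype.card (Equiv.Perm P) : ℝ≥0∞) * ∫⁻ x in KC R, G x = (cnt R x0 : ℝ≥0∞) * ∫⁻ x, G x := by
  classical
  have hm := meas_KC (P := P) R
  have h1 : ∀ σ : Equiv.Perm P, ∫⁻ x in KC R, G x =
      ∫⁻ x : P → ℝ, (KC R).indicator 1 (fun v => x (σ v)) * G x := by
    intro σ
    rw [← lintegral_indicator hm, ← perm_inv σ]
    refine lintegral_congr fun x => ?_
    by_cases h : (fun v => x (σ v)) ∈ KC R
    · rw [indicator_of_mem h, indicator_of_mem h, hinv]; simp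
    · rw [indicator_of_notMem h, indicator_of_notMem h, zero_mul]
  have h2 : (Fintype.card (Equiv.Perm P) : ℝ≥0∞) * ∫⁻ x in KC R, G x =
      ∑ σ : Equiv.Perm P, ∫⁻ x : P → ℝ, (KC R).indicator 1 (fun v => x (σ v)) * G x := by
    rw [← Finset.sum_congr rfl (fun σ _ => h1 σ)]
    rw [Finset.sum_const, nsmul_eq_mul, Finset.card_univ]
  rw [h2, ← lintegral_finsetSum]
  · rw [← lintegral_const_mul _ hG]
    refine lintegral_congr_ae ?_
    filter_upwards [ae_inj (P := P)] with x hx
    rw [← Finset.sum_mul]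
    congr 1
    rw [← cnt_eq R hR x x0 hx hx0]
    unfold cnt
    rw [Finset.card_filter, Nat.cast_sum]
    refine Finset.sum_congr rfl fun σ _ => ?_
    by_cases h : (fun v => x (σ v)) ∈ KC R
    · rw [indicator_of_mem h, if_pos h]; simp
    · rw [indicator_of_notMem h, if_neg h]; simp
  · intro σ _
    refine Measurable.mul ?_ hG
    have hp : Measurable fun x : P → ℝ => fun v => x (σ v) :=
      measurable_pi_lambda _ fun v => measurable_pi_apply _
    exact (measurable_one.indicator hm).comp hp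

theorem mass_one (ρ : ℝ → ℝ) (hρ : LCD ρ) :
    ∫⁻ x : P → ℝ, ∏ v, ENNReal.ofReal (ρ (x v)) = 1 := by
  have hint : Integrable ρ := by
    refine ⟨hρ.meas.aestronglyMeasurable, ?_⟩
    rw [hasFiniteIntegral_iff_ofReal (Eventually.of_forall hρ.nonneg), hρ.mass]
    exact ENNReal.one_lt_top
  have h1 : ∫ x, ρ x = 1 := by
    rw [integral_eq_lintegral_of_nonneg_ae (Eventually.of_forall hρ.nonneg)
      hρ.meas.aestronglyMeasurable, hρ.mass]
    rfl
  have h2 : Integrable fun x : P → ℝ => ∏ v, ρ (x v) :=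
    Integrable.fintype_prod (f := fun _ => ρ) fun _ => hint
  have h3 : ∫ x : P → ℝ, ∏ v, ρ (x v) = 1 := by
    rw [volume_pi, integral_fintype_prod_eq_pow, h1, one_pow]
  have h4 := ofReal_integral_eq_lintegral_ofReal h2
    (Eventually.of_forall fun x => Finset.prod_nonneg fun v _ => hρ.nonneg _)
  rw [h3] at h4
  rw [← ENNReal.ofReal_one, h4]
  refine lintegral_congr fun x => ?_
  rw [ENNReal.ofReal_prod_of_nonneg fun v _ => hρ.nonneg _]

theorem t_SYMA : S_SYMA := by
  intro P _ _ R ρ hR hρ Φ hΦ hinv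
  have hw : Measurable fun x : P → ℝ => ∏ v, ENNReal.ofReal (ρ (x v)) :=
    Finset.measurable_prod _ fun v _ => (hρ.meas.comp (measurable_pi_apply v)).ennreal_ofReal
  have hwi : ∀ (σ : Equiv.Perm P) (x : P → ℝ),
      ∏ v, ENNReal.ofReal (ρ (x (σ v))) = ∏ v, ENNReal.ofReal (ρ (x v)) := by
    intro σ x
    exact Equiv.prod_comp σ fun v => ENNReal.ofReal (ρ (x v))
  let x0 : P → ℝ := fun v => ((Fintype.equivFin P v : ℕ) : ℝ)
  have hx0 : Function.Injective x0 := by
    intro v w h
    have h1 : ((Fintype.equivFin P v : ℕ) : ℝ) = ((Fintype.equivFin P w : ℕ) : ℝ) := h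
    exact (Fintype.equivFin P).injective (Fin.ext (Nat.cast_injective h1))
  have k1 := key R hR (fun x => Φ x * ∏ v, ENNReal.ofReal (ρ (x v))) (hΦ.mul hw)
    (fun σ x => by simp only [hinv σ x, hwi σ x]) x0 hx0
  have k2 := key R hR (fun x => ∏ v, ENNReal.ofReal (ρ (x v))) hw (fun σ x => hwi σ x) x0 hx0
  rw [mass_one ρ hρ, mul_one] at k2
  have hn0 : (Fintype.card (Equiv.Perm P) : ℝ≥0∞) ≠ 0 := by
    exact_mod_cast Fintype.card_ne_zero
  have hnt : (Fintype.card (Equiv.Perm P) : ℝ≥0∞) ≠ ⊤ := ENNReal.natCast_ne_top _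
  rw [← ENNReal.mul_right_inj hn0 hnt, k1, ← k2, mul_assoc]

end Run7.h961.KF
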